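import Pool.Agent.Helper326_VN.NetExists
import Pool.Agent.Helper326_VN.Insc
import Pool.Agent.Helper326_VN.VolBox

/-!
# MP_a20b56_co: volumetric weak epsilon-nets, `1 ≤ α_d ≤ d`

Every finite nonempty family of convex sets of volume one in `ℝ^d` has, for every `α > d`, a weak
`ε`-net with at most `C ε ^ (-α)` sets of volume `v`, where `C` and `v > 0` depend only on `d` and
`α`. So `α_d ≤ d < d + 1` for every `d ≥ 1`, and `α_1 = 1`.
-/

set_option autoImplicit false

open MeasureTheory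

namespace Pool.Agent.Results.MP_a20b56_co.ExponentAtMostDim

open Pool.Agent.Helper326_VN

/-- `S` consists of `k` sets of volume `v` and is a weak `ε`-net for the family `K`. -/
def IsWeakNet {d n k : ℕ} (ε v : ℝ) (K : Fin n → Set (Fin d → ℝ))
    (S : Fin k → Set (Fin d → ℝ)) : Prop :=
  (∀ j, MeasurableSet (S j) ∧ volume (S j) = ENNReal.ofReal v) ∧
    ∀ G : Finset (Fin n), ε * (n : ℝ) ≤ (G.card : ℝ) →
      ∃ j, S j ⊆ convexHull ℝ (⋃ i ∈ G, K i)

/-- The exponent `α` is admissible in dimension `d`. -/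
def Admissible (d : ℕ) (α : ℝ) : Prop :=
  ∃ v C : ℝ, 0 < v ∧ ∀ ε : ℝ, 0 < ε → ε ≤ 1 → ∀ n : ℕ, 1 ≤ n →
    ∀ K : Fin n → Set (Fin d → ℝ), (∀ i, Convex ℝ (K i) ∧ volume (K i) = 1) →
      ∃ (k : ℕ) (S : Fin k → Set (Fin d → ℝ)), (k : ℝ) ≤ C * ε ^ (-α) ∧ IsWeakNet ε v K S

/-- `α_d`, the infimum of the admissible exponents. -/
noncomputable def alpha (d : ℕ) : ENNReal :=
  ⨅ (α : ℝ) (_ : 0 < α ∧ Admissible d α), ENNReal.ofReal α

/-- boxes grow with the factor -/
theorem box_mono {d : ℕ} (x : Fin d → ℝ) {κ κ' : ℝ} (h0 : 0 ≤ κ) (h : κ ≤ κ')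
    (M : Matrix (Fin d) (Fin d) ℝ) : box x κ M ⊆ box x κ' M := by
  rintro p ⟨t, ht, rfl⟩
  rcases h0.eq_or_lt with h1 | h1
  · refine ⟨0, by simp, ?_⟩
    rw [← h1, Matrix.mulVec_zero]
    simp
  · have h2 : 0 < κ' := by linarith
    refine ⟨(κ / κ') • t, ?_, ?_⟩
    · intro j
      rw [Pi.smul_apply, smul_eq_mul, abs_mul, abs_of_nonneg (by positivity)]
      have h3 : κ / κ' ≤ 1 := (div_le_one h2).2 h
      calc κ / κ' * |t j| ≤ 1 * 1 :=
        mul_le_mul h3 (ht j) (abs_nonneg _) (by norm_num)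
        _ = 1 := by norm_num
    · rw [Matrix.mulVec_smul, smul_smul]
      congr 2
      field_simp

/-- every exponent above the dimension is admissible -/
theorem admissible_of (d : ℕ) (hd : 1 ≤ d) (α : ℝ) (hα : (d : ℝ) < α) : Admissible d α := by
  have hd0 : (0 : ℝ) < d := by exact_mod_cast hd
  have hγ : 1 < α / d := (one_lt_div hd0).2 hα
  obtain ⟨C, hC, hnet⟩ := net_exists d hd (α / d) hγ
  obtain ⟨κ, hκ⟩ : ∃ κ : ℝ, κ = 1 / (2 * (d : ℝ) ^ 3) := ⟨_, rfl⟩
  obtain ⟨v0, hv0⟩ : ∃ v0 : ℝ, v0 = ((8 * (d : ℝ)) ^ d)⁻¹ := ⟨_, rfl⟩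
  have hκ0 : 0 < κ := by rw [hκ]; positivity
  have hv00 : 0 < v0 := by rw [hv0]; positivity
  refine ⟨(2 * κ) ^ d * v0, C, by positivity, ?_⟩
  intro ε hε hε1 n hn K hK
  have hne : Nonempty (Fin n) := ⟨⟨0, by omega⟩⟩
  choose c M hdet hbox using fun i => insc d hd (K i) (hK i).1 (hK i).2
  rw [← hv0] at hdet
  have hdet0 : ∀ i, (M i).det ≠ 0 := fun i h => by
    have := hdet i
    rw [h, abs_zero] at this
    linarith
  obtain ⟨N, hN, hG⟩ := hnet (Fin n) c M hdet0 ε hε hε1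
  rw [← hκ] at hG
  -- the scaling factors
  obtain ⟨t, ht⟩ : ∃ t : Fin n → ℝ, t = fun s => κ * (v0 / |(M s).det|) ^ ((1 : ℝ) / d) :=
    ⟨_, rfl⟩
  have hpos : ∀ s, 0 < |(M s).det| := fun s => abs_pos.2 (hdet0 s)
  have ht0 : ∀ s, 0 ≤ t s := fun s => by
    have := hpos s
    rw [ht]; positivity
  have ht1 : ∀ s, t s ≤ κ := fun s => by
    rw [ht]
    have h1 : (v0 / |(M s).det|) ^ ((1 : ℝ) / d) ≤ 1 := by
      apply Real.rpow_le_one
      · have := hpos s; positivity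
      · exact (div_le_one (hpos s)).2 (hdet s)
      · positivity
    calc κ * (v0 / |(M s).det|) ^ ((1 : ℝ) / d) ≤ κ * 1 :=
        mul_le_mul_of_nonneg_left h1 hκ0.le
      _ = κ := mul_one _
  have hvol : ∀ s, (2 * t s) ^ d * |(M s).det| = (2 * κ) ^ d * v0 := fun s => by
    have h1 : ((v0 / |(M s).det|) ^ ((1 : ℝ) / d)) ^ d = v0 / |(M s).det| := by
      rw [← Real.rpow_natCast, ← Real.rpow_mul (by have := hpos s; positivity)]
      rw [one_div, inv_mul_cancel₀ hd0.ne', Real.rpow_one]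
    rw [ht]
    simp only
    rw [← mul_assoc, mul_pow (2 * κ), h1, mul_assoc, div_mul_cancel₀ _ (hpos s).ne']
  refine ⟨N.card, fun j => box (N.equivFin.symm j).1.1 (t (N.equivFin.symm j).1.2)
    (M (N.equivFin.symm j).1.2), ?_, ?_, ?_⟩
  · have h1 : (d : ℝ) * (α / d) = α := by field_simp
    rw [h1] at hN
    exact hN
  · intro j
    have h1 := vol_box d (N.equivFin.symm j).1.1 (t (N.equivFin.symm j).1.2) (ht0 _)
      (M (N.equivFin.symm j).1.2)
    rw [hvol] at h1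
    exact h1
  · intro G hGc
    obtain ⟨m, hm, hsub⟩ := hG G (by rw [Fintype.card_fin]; exact hGc)
    refine ⟨N.equivFin ⟨m, hm⟩, ?_⟩
    simp only [Equiv.symm_apply_apply]
    refine (box_mono _ (ht0 _) (ht1 _) _).trans (hsub.trans ?_)
    apply convexHull_mono
    exact Set.iUnion₂_mono fun i _ => hbox i

/-- the unit cubes of the lower bound -/
def cube (d : ℕ) (i : ℕ) : Set (Fin d → ℝ) :=
  Set.Icc (fun _ => 2 * (i : ℝ)) (fun _ => 2 * (i : ℝ) + 1)

/-- admissible exponents are at least one -/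
theorem le_admissible (d : ℕ) (hd : 1 ≤ d) (α : ℝ) (hα : 0 < α) (h : Admissible d α) :
    1 ≤ α := by
  by_contra hlt
  push Not at hlt
  obtain ⟨v, C, hv, hnet⟩ := h
  have key : ∀ N : ℕ, 1 ≤ N → (N : ℝ) ≤ C * (N : ℝ) ^ α := by
    intro N hN
    have hN0 : (0 : ℝ) < N := by exact_mod_cast hN
    obtain ⟨k, S, hk, hS, hG⟩ := hnet ((N : ℝ)⁻¹) (by positivity)
      (inv_le_one_of_one_le₀ (by exact_mod_cast hN)) N hN (fun i => cube d i) (by
        intro i
        refine ⟨convex_Icc _ _, ?_⟩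
        unfold cube
        rw [Real.volume_Icc_pi]
        simp)
    have hpow : ((N : ℝ)⁻¹) ^ (-α) = (N : ℝ) ^ α := by
      rw [Real.inv_rpow hN0.le, Real.rpow_neg hN0.le, inv_inv]
    rw [hpow] at hk
    have hj : ∀ i : Fin N, ∃ j, S j ⊆ cube d i := by
      intro i
      obtain ⟨j, hj⟩ := hG {i} (by
        rw [inv_mul_cancel₀ hN0.ne']; simp)
      refine ⟨j, ?_⟩
      simp only [Finset.mem_singleton, Set.iUnion_iUnion_eq_left] at hj
      have hcv : Convex ℝ (cube d (i : ℕ)) := convex_Icc _ _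
      rwa [hcv.convexHull_eq] at hj
    choose f hf using hj
    have hinj : Function.Injective f := by
      intro i i' hii
      by_contra hne
      have h1 := hf i
      have h2 := hf i'
      rw [← hii] at h2
      have h3 : S (f i) = ∅ := by
        rw [Set.eq_empty_iff_forall_notMem]
        intro x hx
        have h4 := h1 hx
        have h5 := h2 hx
        have a1 := h4.1 ⟨0, hd⟩
        have a2 := h4.2 ⟨0, hd⟩
        have b1 := h5.1 ⟨0, hd⟩
        have b2 := h5.2 ⟨0, hd⟩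
        simp only at a1 a2 b1 b2
        have hne' : (i : ℕ) ≠ (i' : ℕ) := fun h => hne (Fin.ext h)
        rcases lt_or_gt_of_ne hne' with h6 | h6
        · have : ((i : ℕ) : ℝ) + 1 ≤ ((i' : ℕ) : ℝ) := by exact_mod_cast h6
          linarith
        · have : ((i' : ℕ) : ℝ) + 1 ≤ ((i : ℕ) : ℝ) := by exact_mod_cast h6
          linarith
      have h7 := (hS (f i)).2
      rw [h3, measure_empty] at h7
      exact (ENNReal.ofReal_pos.2 hv).ne h7
    have hcard := Fintype.card_le_of_injective f hinj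
    rw [Fintype.card_fin, Fintype.card_fin] at hcard
    exact le_trans (by exact_mod_cast hcard) hk
  -- contradiction for large `N`
  have h1 : ∀ N : ℕ, 1 ≤ N → (N : ℝ) ^ (1 - α) ≤ C := by
    intro N hN
    have hN0 : (0 : ℝ) < N := by exact_mod_cast hN
    rw [Real.rpow_sub hN0, Real.rpow_one, div_le_iff₀ (by positivity)]
    exact key N hN
  have h2 : Filter.Tendsto (fun N : ℕ => (N : ℝ) ^ (1 - α)) Filter.atTop Filter.atTop :=
    (tendsto_rpow_atTop (by linarith)).comp tendsto_natCast_atTop_atTop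
  obtain ⟨N, hN⟩ := ((h2.eventually_gt_atTop C).and (Filter.eventually_ge_atTop 1)).exists
  exact absurd (h1 N hN.2) (not_le.2 hN.1)

/-- the lower bound -/
theorem one_le_alpha (d : ℕ) (hd : 1 ≤ d) : 1 ≤ alpha d := by
  unfold alpha
  refine le_iInf₂ fun α h => ?_
  rw [ENNReal.one_le_ofReal]
  exact le_admissible d hd α h.1 h.2

/-- the upper bound -/
theorem alpha_le (d : ℕ) (hd : 1 ≤ d) : alpha d ≤ d := by
  have hd0 : (0 : ℝ) < d := by exact_mod_cast hd
  have h1 : ∀ δ : ℝ, 0 < δ → alpha d ≤ ENNReal.ofReal (d + δ) := by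
    intro δ hδ
    exact iInf₂_le (d + δ) ⟨by positivity, admissible_of d hd _ (by linarith)⟩
  apply ENNReal.le_of_forall_pos_le_add
  intro δ hδ _
  refine (h1 δ (by exact_mod_cast hδ)).trans ?_
  rw [ENNReal.ofReal_add hd0.le (by positivity)]
  simp

/-- `1 ≤ α_d ≤ d < d + 1` for every `d ≥ 1`, and `α_1 = 1`. -/
theorem result : (∀ d : ℕ, 1 ≤ d → 1 ≤ alpha d ∧ alpha d ≤ (d : ENNReal) ∧
    alpha d < (d : ENNReal) + 1) ∧ alpha 1 = 1 := by
  refine ⟨fun d hd => ⟨one_le_alpha d hd, alpha_le d hd, ?_⟩, ?_⟩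
  · refine (alpha_le d hd).trans_lt ?_
    exact ENNReal.lt_add_right (ENNReal.natCast_ne_top d) one_ne_zero
  · apply le_antisymm
    · have := alpha_le 1 le_rfl
      simpa using this
    · exact one_le_alpha 1 le_rfl

end Pool.Agent.Results.MP_a20b56_co.ExponentAtMostDim
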